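import Pool.Agent.Helper89.RA.QI

set_option autoImplicit false

/-! Module NARSZ. -/

namespace Pool.Agent.Helper72.RA

open Real Finset MeasureTheory Filter

open scoped Classical

namespace H89

theorem cos_lip2 (x y : ℝ) (hy : 0 ≤ sin y) :
    |cos x - cos y| ≤ |x - y| * (sin y + |x - y|) := by
  have h := Real.cos_sub_cos x y
  rw [h]
  have h1 : |sin ((x + y) / 2)| ≤ sin y + |x - y| / 2 := by
    have e : (x + y) / 2 = y + (x - y) / 2 := by ring
    rw [e, sin_add]
    refine (abs_add_le _ _).trans ?_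
    rw [abs_mul, abs_mul, abs_of_nonneg hy]
    have a1 : |cos ((x - y) / 2)| ≤ 1 := abs_cos_le_one _
    have a2 : |cos y| ≤ 1 := abs_cos_le_one _
    have a3 : |sin ((x - y) / 2)| ≤ |x - y| / 2 := by
      refine abs_sin_le_abs.trans ?_
      rw [abs_div, abs_of_pos (by norm_num : (0 : ℝ) < 2)]
    have a4 : 0 ≤ |sin ((x - y) / 2)| := abs_nonneg _
    nlinarith [mul_le_mul_of_nonneg_left a1 hy, mul_le_mul_of_nonneg_right a2 a4]
  have h2 : |sin ((x - y) / 2)| ≤ |x - y| / 2 := by
    refine abs_sin_le_abs.trans ?_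
    rw [abs_div, abs_of_pos (by norm_num : (0 : ℝ) < 2)]
  rw [abs_mul, abs_mul, abs_neg, abs_of_pos (by norm_num : (0 : ℝ) < 2)]
  have h3 := abs_nonneg (x - y)
  calc 2 * |sin ((x + y) / 2)| * |sin ((x - y) / 2)|
      ≤ 2 * (sin y + |x - y| / 2) * (|x - y| / 2) := by
        apply mul_le_mul _ h2 (abs_nonneg _) (by linarith)
        linarith
    _ ≤ |x - y| * (sin y + |x - y|) := by nlinarith

theorem tolG_lo {q : ℕ} (hq0 : 0 < q) (u : ℕ) : 0 < tolG q u ∧ tolG q u ≤ 1 := by
  unfold tolG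
  split_ifs
  · exact ⟨qi_pos hq0 992, qi_le_one hq0 992⟩
  · exact ⟨qi_pos hq0 560, qi_le_one hq0 560⟩

/-- lower bound for the length of a narrow interval -/
theorem tolG_len {q : ℕ} (hqR : (1000 : ℝ) ≤ (q : ℝ)) (hq0 : 0 < q) (u : ℕ)
    (hP : (Pl q u : ℝ) ≤ 6 * (q : ℝ) ^ 1350) :
    qi q 1970 * (Pl q u : ℝ) ≤ tolG q u * (98 / 1000) := by
  unfold tolG
  split_ifs with h
  · have h' : (Pl q u : ℝ) ≤ (q : ℝ) ^ 900 := by exact_mod_cast h
    have p := qi_pos hq0 1970
    have p' := qi_pos hq0 992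
    calc qi q 1970 * (Pl q u : ℝ) ≤ qi q 1970 * (q : ℝ) ^ 900 :=
          mul_le_mul_of_nonneg_left h' p.le
      _ = qi q 1070 := by
          rw [mul_comm]
          exact pow_qi hq0 900 1970 1070 (by norm_num)
      _ ≤ qi q 992 * (98 / 1000) := by
          have := qi_gap hq0 hqR (show 992 + 1 ≤ 1070 by norm_num)
          linarith
  · have p := qi_pos hq0 1970
    have p' := qi_pos hq0 560
    calc qi q 1970 * (Pl q u : ℝ) ≤ qi q 1970 * (6 * (q : ℝ) ^ 1350) :=
          mul_le_mul_of_nonneg_left hP p.le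
      _ = 6 * ((q : ℝ) ^ 1350 * qi q 1970) := by
          rw [← mul_assoc, mul_comm (qi q 1970) 6, mul_assoc, mul_comm (qi q 1970)]
      _ = 6 * qi q 620 := by
          rw [pow_qi hq0 1350 1970 620 (by norm_num)]
      _ ≤ qi q 560 * (98 / 1000) := by
          have h1 := qi_gap hq0 hqR (show 560 + 1 ≤ 620 by norm_num)
          linarith

end H89

open H89

theorem st_NARSZ (hANG : ST_ANG) (hLEV : ST_LEV) : ST_NARSZ := by
  have hbig : ∀ᶠ q : ℕ in atTop, 1000 ≤ q := eventually_ge_atTop 1000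
  filter_upwards [hANG, hLEV, hbig] with q hA hL hq m hm1 hm2 D θ hG ta hW i g hi hg hig
  obtain ⟨-, hA⟩ := hA m hm1 hm2 D
  obtain ⟨A1, A2, A3, A4, -, -⟩ := hA θ ta hW
  obtain ⟨-, -, L3, -, -, -, L7, L8, -, L10, -, -, -, -⟩ := hL
  have hq0 : 0 < q := by omega
  have hqR : (1000 : ℝ) ≤ (q : ℝ) := by exact_mod_cast hq
  have hgs : g ≠ D.sv := by
    intro h0
    have h1 := (D.ty_s g).2 h0
    have h2 := hg.1
    rw [h1] at h2
    exact absurd h2 (by decide)
  obtain ⟨-, hai0, hai1, -⟩ := A1 i hi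
  obtain ⟨-, hag0, hag1, -⟩ := A1 g hgs
  obtain ⟨hs1, hs2, hcg⟩ := A3 g hg
  have h6 := A4 g i hg hi hig
  clear hm1 hm2 A1 A2 A3 A4 hA
  set ai := θ (ta i) with hai
  set ag := θ (ta g) with hag
  set u := D.lev g with hu
  have hP8 := L8 u
  have hPle : (Pl q u : ℝ) ≤ 6 * (q : ℝ) ^ 1350 := by
    have h1 : Pl q u ≤ Pl q (UU q) := L7 u (UU q) (D.lev_g g hg.1)
    have h2 : (Pl q u : ℝ) ≤ (Pl q (UU q) : ℝ) := by exact_mod_cast h1
    exact h2.trans L10
  have hq9 : (1 : ℝ) ≤ (q : ℝ) ^ 9 := one_le_pow₀ (by linarith)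
  have hP0 : 0 < (Pl q u : ℝ) := by linarith
  have hlen := tolG_len hqR hq0 u hPle
  obtain ⟨ht0, ht1⟩ := tolG_lo hq0 u
  set P : ℝ := (Pl q u : ℝ) with hPdef
  set tol := tolG q u with htol
  have p1352 := qi_pos hq0 1352
  have hai_pos : 0 < ai := lt_of_lt_of_le p1352 hai0
  have hag_pos : 0 < ag := lt_of_lt_of_le p1352 hag0
  have p23 := qi_pos hq0 23
  have hpi2 : ai < π / 2 := by linarith
  have hpi2g : ag < π / 2 := by linarith
  have hsag : 0 < sin ag := lt_of_lt_of_le (div_pos (by norm_num) hP0) hs1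
  have hsai : 0 < sin ai := by linarith
  have hcai : 0 < cos ai := cos_pos_of_mem_Ioo ⟨by linarith, hpi2⟩
  have hcag : 0 < cos ag := by linarith
  have hcpos : 0 < cos ai * cos ag := mul_pos hcai hcag
  have hc1 : cos ai ≤ 1 := cos_le_one _
  have hc2 : cos ag ≤ 1 := cos_le_one _
  have hcle : cos ai * cos ag ≤ cos ag := by nlinarith
  have hcle1 : cos ai * cos ag ≤ 1 := by linarith
  set T := arccos (cos ai * cos ag) with hT
  have hcosT : cos T = cos ai * cos ag := by
    rw [hT, cos_arccos (by linarith) hcle1]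
  have hTag : ag ≤ T := by
    have h0 := antitone_arccos hcle
    rwa [arccos_cos hag_pos.le (by linarith [pi_pos] : ag ≤ π)] at h0
  have hTpi : T ≤ π / 2 := by
    rw [hT]
    exact (arccos_le_pi_div_two).2 hcpos.le
  have hsinle : sin ag ≤ ag := sin_le hag_pos.le
  have hs1' : sin ag ≤ 1 := sin_le_one _
  set h := tol * sin ag / 20 with hh
  have hh0 : 0 < h := div_pos (mul_pos ht0 hsag) (by norm_num)
  have hh1 : h ≤ sin ag / 20 := by
    rw [hh]
    apply div_le_div_of_nonneg_right _ (by norm_num)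
    nlinarith
  constructor
  · have hlen2 : qi q 1970 ≤ T + h - (T - h) := by
      have e1 : T + h - (T - h) = tol * sin ag / 10 := by
        rw [hh]
        ring
      rw [e1]
      have e2 : tol * (98 / 100 / P) ≤ tol * sin ag := mul_le_mul_of_nonneg_left hs1 ht0.le
      have e3 : qi q 1970 ≤ tol * (98 / 1000) / P := by
        rw [le_div_iff₀ hP0]
        exact hlen
      have e4 : tol * (98 / 1000) / P = tol * (98 / 100 / P) / 10 := by ring
      rw [e4] at e3
      linarith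
    have hreg := (hG.reg 2 (by norm_num) (T - h) (T + h) (by linarith)
      (by linarith [pi_gt_three]) hlen2).1
    have hcnt : (cnt 2 θ (T - h) (T + h) : ℝ) ≤ ((narT q θ u ai ag).card : ℝ) := by
      unfold cnt narT
      have : (univ.filter fun t : Fin (NN m) => (t : ℕ) % 4 = 2 ∧ T - h ≤ θ t ∧
          θ t ≤ T + h) ⊆ univ.filter fun t : Fin (NN m) => (t : ℕ) % 4 = 2 ∧
          |θ t - arccos (cos ai * cos ag)| ≤ tolG q u * sin ag / 20 := by
        intro t ht
        simp only [mem_filter, mem_univ, true_and] at ht ⊢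
        refine ⟨ht.1, ?_⟩
        rw [abs_le]
        constructor <;> linarith [ht.2.1, ht.2.2]
      exact_mod_cast card_le_card this
    refine le_trans ?_ (hreg.trans hcnt)
    have hpi : (0 : ℝ) < π := pi_pos
    have h3 : 49 / 50 * ((m : ℝ) ^ 2 / 8 * ((T + h - (T - h)) / π)) =
        (49 / 4000 / π) * ((m : ℝ) ^ 2 * (tol * sin ag)) := by
      rw [hh]
      ring
    rw [h3]
    have h4 : (35 / 10000 : ℝ) ≤ 49 / 4000 / π * (98 / 100) := by
      rw [div_mul_eq_mul_div, le_div_iff₀ hpi]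
      have := pi_lt_d2
      nlinarith
    have h5 : 0 ≤ (m : ℝ) ^ 2 * (tol * (1 / P)) :=
      mul_nonneg (sq_nonneg _) (mul_nonneg ht0.le (one_div_nonneg.2 hP0.le))
    have h6' : 0 ≤ 49 / 4000 / π := div_nonneg (by norm_num) hpi.le
    calc 35 / 10000 * (m : ℝ) ^ 2 * tol / P = 35 / 10000 * ((m : ℝ) ^ 2 * (tol * (1 / P))) := by
          ring
      _ ≤ 49 / 4000 / π * (98 / 100) * ((m : ℝ) ^ 2 * (tol * (1 / P))) :=
          mul_le_mul_of_nonneg_right h4 h5
      _ = 49 / 4000 / π * ((m : ℝ) ^ 2 * (tol * (98 / 100 / P))) := by ring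
      _ ≤ _ := by
          apply mul_le_mul_of_nonneg_left _ h6'
          apply mul_le_mul_of_nonneg_left _ (sq_nonneg _)
          apply mul_le_mul_of_nonneg_left hs1 ht0.le
  · intro t ht
    unfold narT at ht
    simp only [mem_filter, mem_univ, true_and] at ht
    have ht2 : |θ t - T| ≤ h := ht.2
    rw [← hcosT]
    have hsT : 0 ≤ sin T := sin_nonneg_of_nonneg_of_le_pi (by linarith) (by linarith)
    refine (cos_lip2 _ _ hsT).trans ?_
    have hsT7 : sin T ≤ 7 * sin ai := by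
      have e1 : sin T ^ 2 = sin ai ^ 2 + cos ai ^ 2 * sin ag ^ 2 := by
        have a1 := sin_sq_add_cos_sq T
        have a2 := sin_sq_add_cos_sq ai
        have a3 := sin_sq_add_cos_sq ag
        rw [hcosT] at a1
        have a4 : sin T ^ 2 = 1 - (cos ai * cos ag) ^ 2 := by linarith
        have a5 : cos ag ^ 2 = 1 - sin ag ^ 2 := by linarith
        have a6 : sin ai ^ 2 = 1 - cos ai ^ 2 := by linarith
        rw [a4, mul_pow, a5, a6]
        ring
      have e2 : sin T ≤ sin ai + sin ag := by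
        apply abs_le_of_sq_le_sq' _ (by linarith) |>.2
        rw [e1]
        have b1 : cos ai ^ 2 ≤ 1 := by nlinarith
        have b2 : cos ai ^ 2 * sin ag ^ 2 ≤ 1 * sin ag ^ 2 :=
          mul_le_mul_of_nonneg_right b1 (sq_nonneg _)
        nlinarith
      linarith
    have hd0 := abs_nonneg (θ t - T)
    calc |θ t - T| * (sin T + |θ t - T|) ≤ h * (7 * sin ai + sin ai) := by
          apply mul_le_mul ht2 _ (by linarith) hh0.le
          linarith
      _ = tol * (sin ai * sin ag) * (8 / 20) := by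
          rw [hh]
          ring
      _ ≤ tol * (sin ai * sin ag) := by
          have : 0 ≤ tol * (sin ai * sin ag) :=
            mul_nonneg ht0.le (mul_nonneg hsai.le hsag.le)
          linarith

end Pool.Agent.Helper72.RA
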