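import Pool.Agent.Helper89.RA.QI

set_option autoImplicit false

/-! Module WIDE. -/

namespace Pool.Agent.Helper72.RA

open Real Finset MeasureTheory Filter

open scoped Classical

open H89

theorem st_WIDE (hANG : ST_ANG) : ST_WIDE := by
  have hbig : ∀ᶠ q : ℕ in atTop, 1000 ≤ q := eventually_ge_atTop 1000
  filter_upwards [hANG, hbig] with q hA hq m hm1 hm2 D θ ta hW c
  obtain ⟨-, hA⟩ := hA m hm1 hm2 D
  obtain ⟨A1, A2, -, -, -, -⟩ := hA θ ta hW
  have hq0 : 0 < q := by omega
  have hqR : (1000 : ℝ) ≤ (q : ℝ) := by exact_mod_cast hq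
  set F := univ.filter fun e : D.K × D.K =>
        (D.ty e.1 = Ty.h0 ∨ D.ty e.1 = Ty.xp ∨ D.ty e.1 = Ty.x0 ∨ D.ty e.1 = Ty.h) ∧
        e.2 ≠ D.sv ∧ ¬ high D e.2 ∧
        |cos (θ (ta e.1)) * cos (θ (ta e.2)) - c| ≤ qi q 996 with hF
  have hinj : Set.InjOn (fun e : D.K × D.K => (e.2, D.cno e.1)) (F : Set (D.K × D.K)) := by
    rintro ⟨h, k⟩ he ⟨h', k'⟩ he' heq
    simp only [Prod.mk.injEq] at heq
    obtain ⟨hk, hc⟩ := heq
    subst hk
    simp only [hF, coe_filter, mem_univ, true_and, Set.mem_ofPred_eq] at he he'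
    obtain ⟨t1, k1, k2, b1⟩ := he
    obtain ⟨t1', -, -, b1'⟩ := he'
    by_contra hne
    have hne' : h ≠ h' := by
      intro h0
      exact hne (by rw [h0])
    have hsv : ∀ x : D.K, (D.ty x = Ty.h0 ∨ D.ty x = Ty.xp ∨ D.ty x = Ty.x0 ∨
        D.ty x = Ty.h) → x ≠ D.sv := by
      intro x hx h0
      have := (D.ty_s x).2 h0
      rw [this] at hx
      simp at hx
    have s2 := D.sep2 h h' hne' hc t1 t1'
    have a1 := (A1 h (hsv h t1)).2.2.2
    have a2 := (A1 h' (hsv h' t1')).2.2.2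
    have a3 := (A2 k k1 k2).2
    have p23 := qi_pos hq0 23
    have e1 : 4 * qi q 1394 ≤ qi q 930 :=
      (qi_gap hq0 (by linarith : (4 : ℝ) ≤ q) (by norm_num : 930 + 1 ≤ 1394))
    have e2 : 1000 * qi q 996 ≤ qi q 953 := qi_gap hq0 hqR (by norm_num : 953 + 1 ≤ 996)
    have e3 : qi q 930 * qi q 23 = qi q 953 := qi_mul 930 23 953 (by norm_num)
    have d1 : qi q 930 / 2 ≤ |cos (θ (ta h)) - cos (θ (ta h'))| := by
      have t1 : |cos (arctan (D.rad h / D.pos h)) - cos (arctan (D.rad h' / D.pos h'))| ≤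
          |cos (θ (ta h)) - cos (arctan (D.rad h / D.pos h))| +
          |cos (θ (ta h)) - cos (θ (ta h'))| +
          |cos (θ (ta h')) - cos (arctan (D.rad h' / D.pos h'))| := by
        have r1 := abs_sub_le (cos (arctan (D.rad h / D.pos h))) (cos (θ (ta h)))
          (cos (arctan (D.rad h' / D.pos h')))
        have r2 := abs_sub_le (cos (θ (ta h))) (cos (θ (ta h')))
          (cos (arctan (D.rad h' / D.pos h')))
        rw [abs_sub_comm (cos (arctan (D.rad h / D.pos h))) (cos (θ (ta h)))] at r1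
        linarith
      linarith
    have d2 : |cos (θ (ta h)) - cos (θ (ta h'))| * cos (θ (ta k)) ≤ 2 * qi q 996 := by
      have r0 : 0 < cos (θ (ta k)) := lt_of_lt_of_le p23 a3
      calc |cos (θ (ta h)) - cos (θ (ta h'))| * cos (θ (ta k))
          = |(cos (θ (ta h)) - cos (θ (ta h'))) * cos (θ (ta k))| := by
            rw [abs_mul, abs_of_pos r0]
        _ = |(cos (θ (ta h)) * cos (θ (ta k)) - c) - (cos (θ (ta h')) * cos (θ (ta k)) - c)| := by
            congr 1
            ring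
        _ ≤ |cos (θ (ta h)) * cos (θ (ta k)) - c| + |cos (θ (ta h')) * cos (θ (ta k)) - c| :=
            abs_sub _ _
        _ ≤ 2 * qi q 996 := by linarith
    have d3 : qi q 930 / 2 * qi q 23 ≤
        |cos (θ (ta h)) - cos (θ (ta h'))| * cos (θ (ta k)) :=
      mul_le_mul d1 a3 p23.le (abs_nonneg _)
    have p953 := qi_pos hq0 953
    have d4 : qi q 930 / 2 * qi q 23 = qi q 953 / 2 := by
      rw [← e3]
      ring
    rw [d4] at d3
    linarith
  have hmaps : ∀ e ∈ F, (fun e : D.K × D.K => (e.2, D.cno e.1)) e ∈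
      (univ : Finset D.K) ×ˢ range (q ^ 3) := by
    intro e _
    simp only [mem_product, mem_univ, mem_range, true_and]
    exact D.cno_lt _
  have hcard := card_le_card_of_injOn _ hmaps hinj
  rw [card_product, card_range, card_univ, D.card_K] at hcard
  refine hcard.trans ?_
  exact Nat.mul_le_mul_right _ (Nat.sub_le _ _)

end Pool.Agent.Helper72.RA
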