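import Pool.Agent.Helper89.RA.QI

set_option autoImplicit false

/-! Module WIDESZ. -/

namespace Pool.Agent.Helper72.RA

open Real Finset MeasureTheory Filter

open scoped Classical

namespace H89

theorem cos_lip (x y : ℝ) : |cos x - cos y| ≤ |x - y| := by
  have h := Real.cos_sub_cos x y
  rw [h]
  have h1 : |sin ((x + y) / 2)| ≤ 1 := abs_sin_le_one _
  have h2 : |sin ((x - y) / 2)| ≤ |(x - y) / 2| := abs_sin_le_abs
  rw [abs_mul, abs_mul, abs_neg, abs_of_pos (by norm_num : (0 : ℝ) < 2)]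
  have h3 : |(x - y) / 2| = |x - y| / 2 := by
    rw [abs_div, abs_of_pos (by norm_num : (0 : ℝ) < 2)]
  have h4 : 0 ≤ |sin ((x + y) / 2)| := abs_nonneg _
  have h5 : 0 ≤ |sin ((x - y) / 2)| := abs_nonneg _
  rw [h3] at h2
  nlinarith [abs_nonneg (x - y)]

end H89

open H89

theorem st_WIDESZ (hANG : ST_ANG) : ST_WIDESZ := by
  have hbig : ∀ᶠ q : ℕ in atTop, 1000 ≤ q := eventually_ge_atTop 1000
  filter_upwards [hANG, hbig] with q hA hq m hm1 hm2 D θ hG ta hW i k hi hk hhi hhk
  obtain ⟨-, hA⟩ := hA m hm1 hm2 D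
  obtain ⟨A1, A2, -, -, -, -⟩ := hA θ ta hW
  have hq0 : 0 < q := by omega
  have hqR : (1000 : ℝ) ≤ (q : ℝ) := by exact_mod_cast hq
  obtain ⟨-, hai0, hai1, -⟩ := A1 i hi
  obtain ⟨-, hak0, hak1, -⟩ := A1 k hk
  obtain ⟨hsi, hci⟩ := A2 i hi hhi
  obtain ⟨hsk, hck⟩ := A2 k hk hhk
  set ai := θ (ta i) with hai
  set ak := θ (ta k) with hak
  have p1352 := qi_pos hq0 1352
  have p20 := qi_pos hq0 20
  have p23 := qi_pos hq0 23
  have p996 := qi_pos hq0 996
  have p995 := qi_pos hq0 995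
  have p955 := qi_pos hq0 955
  have hai_pos : 0 < ai := lt_of_lt_of_le p1352 hai0
  have hcpos : 0 < cos ai * cos ak := mul_pos (lt_of_lt_of_le p23 hci) (lt_of_lt_of_le p23 hck)
  have hc1 : cos ai ≤ 1 := cos_le_one _
  have hc2 : cos ak ≤ 1 := cos_le_one _
  have hcle : cos ai * cos ak ≤ cos ai := by nlinarith
  have hcle1 : cos ai * cos ak ≤ 1 := by linarith
  set T := arccos (cos ai * cos ak) with hT
  have hcosT : cos T = cos ai * cos ak := by
    rw [hT, cos_arccos (by linarith) hcle1]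
  have hTai : ai ≤ T := by
    have h0 := antitone_arccos hcle
    rwa [arccos_cos hai_pos.le (by linarith [pi_pos] : ai ≤ π)] at h0
  have hTpi : T ≤ π / 2 := by
    rw [hT]
    exact (arccos_le_pi_div_two).2 hcpos.le
  have hsinle : sin ai ≤ ai := sin_le hai_pos.le
  have e1 : qi q 996 * 1000 ≤ qi q 20 := by
    have := qi_gap hq0 hqR (show 20 + 1 ≤ 996 by norm_num)
    linarith
  have hT0 : 0 ≤ T - qi q 996 := by linarith
  have hle1 : qi q 996 ≤ 1 := qi_le_one hq0 996
  have hT1 : T + qi q 996 ≤ π := by linarith [pi_gt_three]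
  constructor
  · have hreg := (hG.reg 2 (by norm_num) (T - qi q 996) (T + qi q 996) hT0 hT1 (by
      have : qi q 1970 ≤ qi q 996 := qi_anti hq0 (by norm_num)
      linarith)).1
    have hcnt : (cnt 2 θ (T - qi q 996) (T + qi q 996) : ℝ) ≤ ((wideT q θ ai ak).card : ℝ) := by
      unfold cnt wideT
      have : (univ.filter fun t : Fin (NN m) => (t : ℕ) % 4 = 2 ∧ T - qi q 996 ≤ θ t ∧
          θ t ≤ T + qi q 996) ⊆ univ.filter fun t : Fin (NN m) => (t : ℕ) % 4 = 2 ∧
          |cos (θ t) - cos ai * cos ak| ≤ qi q 996 := by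
        intro t ht
        simp only [mem_filter, mem_univ, true_and] at ht ⊢
        refine ⟨ht.1, ?_⟩
        rw [← hcosT]
        refine (cos_lip _ _).trans ?_
        rw [abs_le]
        constructor <;> linarith [ht.2.1, ht.2.2]
      exact_mod_cast card_le_card this
    refine le_trans ?_ (hreg.trans hcnt)
    have h2 : T + qi q 996 - (T - qi q 996) = 2 * qi q 996 := by ring
    rw [h2]
    have hpi : (0 : ℝ) < π := pi_pos
    have h3 : 49 / 50 * ((m : ℝ) ^ 2 / 8 * (2 * qi q 996 / π)) =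
        (49 / 200 / π) * ((m : ℝ) ^ 2 * qi q 996) := by
      ring
    rw [h3]
    have h4 : (7 / 100 : ℝ) ≤ 49 / 200 / π := by
      rw [le_div_iff₀ hpi]
      have := pi_lt_d2
      nlinarith
    have h5 : 0 ≤ (m : ℝ) ^ 2 * qi q 996 := mul_nonneg (sq_nonneg _) p996.le
    rw [mul_assoc (7 / 100 : ℝ) ((m : ℝ) ^ 2) (qi q 996)]
    exact mul_le_mul_of_nonneg_right h4 h5
  · intro t ht
    unfold wideT at ht
    simp only [mem_filter, mem_univ, true_and] at ht
    refine ht.2.trans ?_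
    have h1 : qi q 20 / 15 * (qi q 20 / 15) ≤ sin ai * sin ak :=
      mul_le_mul hsi hsk (by positivity) (le_trans (by positivity) hsi)
    have h2 : qi q 20 / 15 * (qi q 20 / 15) = qi q 40 / 225 := by
      rw [← qi_mul 20 20 40 (by norm_num)]
      ring
    rw [h2] at h1
    have h3 : qi q 955 * (qi q 40 / 225) = qi q 995 / 225 := by
      rw [← qi_mul 955 40 995 (by norm_num)]
      ring
    have h4 : qi q 996 * 1000 ≤ qi q 995 := by
      have := qi_gap hq0 hqR (show 995 + 1 ≤ 996 by norm_num)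
      linarith
    calc qi q 996 ≤ qi q 995 / 225 := by linarith
      _ = qi q 955 * (qi q 40 / 225) := h3.symm
      _ ≤ _ := mul_le_mul_of_nonneg_left h1 p955.le

end Pool.Agent.Helper72.RA
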