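import Pool.Agent.Helper72.RA.Defs2

set_option autoImplicit false

/-! Small lemmas on `qi`. -/

namespace Pool.Agent.Helper72.RA

open Real Finset MeasureTheory Filter

namespace H89

theorem qi_pos {q : ℕ} (hq : 0 < q) (k : ℕ) : 0 < qi q k := by
  unfold qi
  have : (0 : ℝ) < q := by exact_mod_cast hq
  positivity

theorem qi_mul {q : ℕ} (a b c : ℕ) (h : a + b = c) : qi q a * qi q b = qi q c := by
  subst h
  unfold qi
  rw [pow_add, mul_inv]

theorem qi_anti {q : ℕ} (hq : 0 < q) {a b : ℕ} (h : a ≤ b) : qi q b ≤ qi q a := by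
  unfold qi
  have h1 : (1 : ℝ) ≤ q := by exact_mod_cast hq
  have : (0 : ℝ) < (q : ℝ) ^ a := by positivity
  exact inv_anti₀ this (pow_le_pow_right₀ h1 h)

/-- `q * q^-(k+1) = q^-k`. -/
theorem qi_succ {q : ℕ} (hq : 0 < q) (k k' : ℕ) (h : k + 1 = k') :
    (q : ℝ) * qi q k' = qi q k := by
  subst h
  unfold qi
  have : (q : ℝ) ≠ 0 := by
    have : (0 : ℝ) < q := by exact_mod_cast hq
    exact this.ne'
  rw [pow_succ, mul_inv]
  field_simp

theorem pow_qi {q : ℕ} (hq : 0 < q) (a b c : ℕ) (h : a + c = b) :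
    (q : ℝ) ^ a * qi q b = qi q c := by
  subst h
  unfold qi
  have : (q : ℝ) ≠ 0 := by
    have : (0 : ℝ) < q := by exact_mod_cast hq
    exact this.ne'
  rw [pow_add, mul_inv, ← mul_assoc, mul_inv_cancel₀ (pow_ne_zero _ this), one_mul]

theorem qi_inv_pow {q : ℕ} (hq : 0 < q) (a : ℕ) : (q : ℝ) ^ a * qi q a = 1 := by
  unfold qi
  have : (q : ℝ) ≠ 0 := by
    have : (0 : ℝ) < q := by exact_mod_cast hq
    exact this.ne'
  exact mul_inv_cancel₀ (pow_ne_zero _ this)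

theorem qi_le_one {q : ℕ} (hq : 0 < q) (a : ℕ) : qi q a ≤ 1 := by
  have h := qi_anti hq (Nat.zero_le a)
  have h0 : qi q 0 = 1 := by simp [qi]
  linarith

/-- if `C ≤ q` then `C * q^-(k+1) ≤ q^-k`. -/
theorem qi_gap {q : ℕ} (hq : 0 < q) {C : ℝ} (hC : C ≤ q) {k k' : ℕ} (h : k + 1 ≤ k') :
    C * qi q k' ≤ qi q k := by
  have h1 : qi q k' ≤ qi q (k + 1) := qi_anti hq h
  have h2 := qi_succ hq k (k + 1) rfl
  have h3 := qi_pos hq (k + 1)
  have h4 := qi_pos hq k'
  calc C * qi q k' ≤ (q : ℝ) * qi q k' := by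
        apply mul_le_mul_of_nonneg_right hC h4.le
    _ ≤ (q : ℝ) * qi q (k + 1) := by
        apply mul_le_mul_of_nonneg_left h1
        positivity
    _ = qi q k := h2

end H89

end Pool.Agent.Helper72.RA
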